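import Mathlib

set_option autoImplicit false

namespace Pool.Agent.Results.MP_3fd052_nt.Cex

/-- Lower degree: the least `d ≥ 1` that occurs infinitely often as a gap (`⊤` if none). -/
noncomputable def lowerDeg (k : ℕ → ℕ) : ℕ∞ :=
  sInf ((↑) '' {d : ℕ | 1 ≤ d ∧ {n | k (n + 1) - k n = d}.Infinite})

/-- `b` is a `K`-sequence. -/
def IsKSeq (k : ℕ → ℕ) (b : ℕ → ℤ) : Prop :=
  (∀ n m, k n ≤ m → m < k (n + 1) → b m = b (k n)) ∧ ∀ n, 1 ≤ n → b (k n) - b (k (n - 1)) = b n

def Safe (v s : ZMod 6) : Prop := ∀ i : Fin 4, v + (i : ℕ) * s ≠ 0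

instance (v s : ZMod 6) : Decidable (Safe v s) := by unfold Safe; infer_instance

lemma key : ∀ v s t : ZMod 6, ∃ g : Fin 3, Safe v s → s ≠ 0 → t ≠ 0 → t ≠ s →
    (∀ i : Fin 6, (i : ℕ) ≤ g + 3 → v + (i : ℕ) * s ≠ 0) ∧ Safe (v + ((g : ℕ) + 3 : ℕ) * s) t := by
  decide +kernel

noncomputable def gap (v s t : ℤ) : ℕ := (key v s t).choose + 3

noncomputable def st : ℕ → (ℕ → ℤ) × ℕ
  | 0 => (fun n => n + 1, 3)
  | j + 1 => (fun n => if n < (st j).2 then (st j).1 n else
      (st j).1 ((st j).2 - 1) + (n + 1 - (st j).2 : ℕ) * (st j).1 (j + 1),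
      (st j).2 + gap ((st j).1 ((st j).2 - 1)) ((st j).1 (j + 1)) ((st j).1 (j + 2)))

noncomputable def k : ℕ → ℕ
  | 0 => 0
  | j + 1 => (st j).2

noncomputable def B (n : ℕ) : ℤ := (st n).1 n

lemma k3 (j : ℕ) : k j + 3 ≤ k (j + 1) := by
  cases j with
  | zero => simp [k, st]
  | succ j => simp [k, st, gap]

lemma kge (j : ℕ) : 3 * j ≤ k j := by
  induction j with
  | zero => simp
  | succ j ih => have := k3 j; omega

lemma kmono : StrictMono k := strictMono_nat_of_lt_succ fun j => by have := k3 j; omega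

lemma stab (j i n : ℕ) (h : n < k (j + 1)) : (st (j + i)).1 n = (st j).1 n := by
  induction i with
  | zero => rfl
  | succ i ih =>
    have : n < (st (j + i)).2 := h.trans_le (kmono.monotone (by omega : j + 1 ≤ j + i + 1))
    rw [← add_assoc, st]; simp only [if_pos this, ih]

lemma stB (j n : ℕ) (h : n < k (j + 1)) : (st j).1 n = B n := by
  have h2 : n < k (n + 1) := by have := kge (n + 1); omega
  rw [B, ← stab j n n h, ← stab n j n h2, add_comm]

lemma blk (j n : ℕ) (h1 : k (j + 1) ≤ n) (h2 : n < k (j + 1 + 1)) :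
    B n = B (k (j + 1) - 1) + (n + 1 - k (j + 1) : ℕ) * B (j + 1) := by
  have := kge (j + 1)
  rw [← stB (j + 1) n h2, ← stB j (k (j + 1) - 1) (by omega), ← stB j (j + 1) (by omega), st]
  simp only [if_neg (show ¬n < (st j).2 from not_lt.2 h1)]; rfl

lemma knext (j : ℕ) : k (j + 1 + 1) = k (j + 1) + gap (B (k (j + 1) - 1)) (B (j + 1)) (B (j + 2)) := by
  have := kge (j + 1)
  rw [← stB j (k (j + 1) - 1) (by omega), ← stB j (j + 1) (by omega), ← stB j (j + 2) (by omega)]
  rfl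

lemma B0 (n : ℕ) (h : n < 3) : B n = n + 1 := (stB 0 n h).symm

noncomputable def b (n : ℕ) : ℤ := if n = 0 then 1 else B n - B (n - 1)

lemma bval (j n : ℕ) (h1 : k j ≤ n) (h2 : n < k (j + 1)) : b n = B j := by
  cases j with
  | zero =>
    have : n < 3 := h2
    interval_cases n <;> simp [b, B0]
  | succ j =>
    have := kge (j + 1)
    rw [b, if_neg (by omega), blk j n h1 h2]
    rcases h1.eq_or_lt with rfl | h
    · simp
    · rw [blk j (n - 1) (by omega) (by omega), show n + 1 - k (j + 1) = n - 1 + 1 - k (j + 1) + 1 by omega]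
      push_cast; ring

lemma exb (n : ℕ) : ∃ j, k j ≤ n ∧ n < k (j + 1) := by
  induction n with
  | zero => exact ⟨0, le_rfl, by simp [k, st]⟩
  | succ n ih =>
    obtain ⟨j, h1, h2⟩ := ih
    by_cases h : n + 1 < k (j + 1)
    · exact ⟨j, by omega, h⟩
    · exact ⟨j + 1, by omega, by have := k3 (j + 1); omega⟩

lemma inv (j : ℕ) : (∀ n < k (j + 1), (B n : ZMod 6) ≠ 0) ∧ Safe (B (k (j + 1) - 1)) (B (j + 1)) := by
  induction j with
  | zero =>
    refine ⟨fun n h => ?_, ?_⟩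
    · have : n < 3 := h
      rw [B0 n this]; interval_cases n <;> decide
    · show Safe (B 2) (B 1)
      rw [B0 _ (by norm_num), B0 _ (by norm_num)]; decide
  | succ j ih =>
    obtain ⟨h1, h2⟩ := ih
    have := kge (j + 1)
    obtain ⟨i, a1, a2⟩ := exb (j + 2)
    have a3 := bval _ _ a1 a2
    have a4 := kge i
    rw [b, if_neg (by omega)] at a3
    have hs := (key (B (k (j + 1) - 1)) (B (j + 1)) (B (j + 2))).choose_spec h2
      (h1 _ (by omega)) (h1 _ (by omega)) (fun e => h1 i (by omega) (by rw [← a3]; push_cast; exact sub_eq_zero.2 e))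
    have hk := knext j
    rw [gap] at hk
    generalize (key (B (k (j + 1) - 1)) (B (j + 1)) (B (j + 2))).choose = g at *
    refine ⟨fun n h => ?_, ?_⟩
    · by_cases h' : n < k (j + 1)
      · exact h1 n h'
      · rw [blk j n (by omega) h]
        have := hs.1 ⟨n + 1 - k (j + 1), by omega⟩ (by simp only; omega)
        simpa using this
    · rw [blk j (k (j + 1 + 1) - 1) (by omega) (by omega),
        show k (j + 1 + 1) - 1 + 1 - k (j + 1) = g + 3 by omega]
      simpa using hs.2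

theorem result : ∃ (k : ℕ → ℕ) (b : ℕ → ℤ) (h : ℕ), k 0 = 0 ∧ StrictMono k ∧ 3 ≤ lowerDeg k ∧
    IsKSeq k b ∧ 1 ≤ h ∧ ∀ n, ¬(h : ℤ) ∣ b n := by
  refine ⟨k, b, 6, rfl, kmono, ?_, ⟨fun n m h1 h2 => ?_, fun n h => ?_⟩, by norm_num, fun n h => ?_⟩
  · refine le_sInf ?_
    rintro _ ⟨d, ⟨-, hd⟩, rfl⟩
    obtain ⟨n, hn⟩ := hd.nonempty
    have := k3 n
    have h3 : 3 ≤ d := by simp only [Set.mem_setOf_eq] at hn; omega
    exact_mod_cast h3
  · rw [bval n m h1 h2, bval n _ le_rfl (kmono (by omega))]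
  · rw [bval n _ le_rfl (kmono (by omega)), bval (n - 1) _ le_rfl (kmono (by omega)), b,
      if_neg (by omega)]
  · obtain ⟨j, a1, a2⟩ := exb n
    rw [bval j n a1 a2] at h
    exact (inv j).1 j (by have := kge (j + 1); omega) ((ZMod.intCast_zmod_eq_zero_iff_dvd _ 6).2 h)

end Pool.Agent.Results.MP_3fd052_nt.Cex
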